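import Pool.Agent.HSB.Crd
import Pool.Agent.HSB.P_TAU
import Pool.Agent.HSB.P_ISO
import Pool.Agent.UQL.P_MOD
import Pool.Agent.UQL.P_BAS
import Pool.Agent.UQL.P_ACT

set_option autoImplicit false

/-!
# Homology semibiplanes of prime order with an abelian group of order `p (p - 1) / 2`

Every homology semibiplane of odd prime order `p` which admits an abelian group of automorphisms
of order `p (p - 1) / 2` is isomorphic to `PG (2, p) / τ` for an involutory homology `τ`.

`HSB.IsHS` (homology semibiplanes) and `HSB.Par`, `HSB.incGraph` are in `Pool/Agent/HSB/Defs.lean`;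
`UQL.Coll`, `UQL.Coll.IsInvHom`, `UQL.QPt`, `UQL.QBl`, `UQL.QInc` (involutory homologies and the
points, blocks and incidence of the quotient) in `Pool/Agent/UQL/Defs.lean`. The plane `PG (2, p)`
is Mathlib's structure on `ℙ (ZMod p) (Fin 3 → ZMod p)`.
-/

namespace Pool.Agent.Results.MP_7e1f1a_co.AbelianPrime

open Configuration UQL Pool.Agent.HSB
open scoped LinearAlgebra.Projectivization

universe u v w

/-- Let `I` be the incidence relation (between the points `V` and the blocks `W`) of a homology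
semibiplane of odd prime order `p`, and let `B` be an abelian group of order `p (p - 1) / 2` which
acts by automorphisms, faithfully on the points. Then there is an involutory homology `τ` of
`PG (2, p)` such that `(V, W, I)` is isomorphic to `PG (2, p) / τ`. -/
theorem result (p : ℕ) [Fact p.Prime] (hp : p ≠ 2) (V : Type u) (W : Type v) [Finite V] [Finite W]
    (I : V → W → Prop) (hI : IsHS p I) (B : Type w) [CommGroup B] [MulAction B V] [MulAction B W]
    (hinc : ∀ (g : B) (x : V) (b : W), I (g • x) (g • b) ↔ I x b)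
    (hfaith : ∀ g : B, (∀ x : V, g • x = x) → g = 1) (hcard : 2 * Nat.card B = p * (p - 1)) :
    ∃ τ : Coll (ℙ (ZMod p) (Fin 3 → ZMod p)) (ℙ (ZMod p) (Fin 3 → ZMod p)), τ.IsInvHom ∧
      ∃ (e : V ≃ QPt τ) (f : W ≃ QBl τ), ∀ x b, I x b ↔ QInc τ (e x) (f b) := by
  have hprime : p.Prime := Fact.out
  obtain ⟨t, ht⟩ := hprime.odd_of_ne_two hp
  have := Fintype.ofFinite V
  have := Fintype.ofFinite W
  have h2 : (2 : ZMod p) ≠ 0 := by
    intro h0
    have h1 : ((2 : ℕ) : ZMod p) = 0 := by exact_mod_cast h0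
    have h3 := Nat.le_of_dvd (by norm_num) ((ZMod.natCast_eq_zero_iff _ _).1 h1)
    have := hprime.two_le
    omega
  subst ht
  have hGS : GS t I B := ⟨hI.hs rfl, hinc, hfaith, by
    have h1 : (2 * t + 1) * (2 * t + 1 - 1) = 2 * ((2 * t + 1) * t) := by
      rw [Nat.add_sub_cancel]; ring
    omega⟩
  obtain ⟨vec, wec, hvec, hwec, hdt⟩ := hGS.coords inferInstance
  obtain ⟨τ, hτ⟩ := p_TAU (ZMod (2 * t + 1)) h2
  obtain ⟨μ⟩ := p_MOD p_BAS p_ACT (ZMod (2 * t + 1)) h2 τ hτ
  exact ⟨τ, hτ, p_ISO (2 * t + 1) V W I _ _ τ hp hI μ vec wec hvec hwec hdt⟩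

end Pool.Agent.Results.MP_7e1f1a_co.AbelianPrime
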