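import Pool.Agent.UQL.Fin
import Pool.Agent.UQL.P_INV
import Pool.Agent.UQL.P_FOU
import Pool.Agent.UQL.P_CST
import Pool.Agent.UQL.P_CYC
import Pool.Agent.UQL.P_ZET
import Pool.Agent.UQL.P_REL
import Pool.Agent.UQL.P_NRM
import Pool.Agent.UQL.P_COB
import Pool.Agent.UQL.P_FIX
import Pool.Agent.UQL.P_SEP
import Pool.Agent.UQL.P_EXP
import Pool.Agent.UQL.EXT65
import Pool.Agent.UQL.P_UNI
import Pool.Agent.UQL.P_LFT
import Pool.Agent.UQL.P_BAS
import Pool.Agent.UQL.P_ACT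
import Pool.Agent.UQL.P_MOD
set_option autoImplicit false

/-!
# Uniqueness of the lift of the homology semibiplane PG(2,q)/τ

Projective planes are Mathlib's `Configuration.ProjectivePlane`, and PG(2,K) is Mathlib's
structure on `ℙ K (Fin 3 → K)` (points and lines are the one-dimensional subspaces of `K^3`,
incidence is orthogonality).  The definitions `UQL.Coll` (collineations), `UQL.PlaneIso`
(isomorphisms), `UQL.Coll.IsInvHom` (involutory homologies), `UQL.QPt`, `UQL.QBl`, `UQL.QInc`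
(points, blocks and incidence of the quotient Π/τ) and `UQL.QIso` (isomorphisms of quotients)
are in `Pool/Agent/UQL/Defs.lean`; `UQL.Lifts` is in `Pool/Agent/UQL/Fin.lean`.
-/

namespace Pool.Agent.Results.MP_7e1f1a_co.UniqueLift

open Configuration UQL
open scoped LinearAlgebra.Projectivization

universe u v w

/-- Let `K` be a finite field of odd characteristic, `τ'` an involutory homology of PG(2,K),
and `τ` an involutory homology of an arbitrary finite projective plane `(P, L)`.  Then every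
isomorphism `e` from the quotient `(P, L)/τ` to the quotient `PG(2,K)/τ'` is induced by an
isomorphism `Ψ` of the planes which commutes with the homologies; and `Ψ` is unique up to
composition with `τ`. -/
theorem result (K : Type w) [Field K] [Fintype K] [DecidableEq K] (hK : (2 : K) ≠ 0)
    (P : Type u) (L : Type v) [Membership P L] [ProjectivePlane P L] [Finite P] [Finite L]
    (τ : Coll P L) (hτ : τ.IsInvHom)
    (τ' : Coll (ℙ K (Fin 3 → K)) (ℙ K (Fin 3 → K))) (hτ' : τ'.IsInvHom)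
    (e : QIso τ τ') :
    ∃ Ψ : PlaneIso P L (ℙ K (Fin 3 → K)) (ℙ K (Fin 3 → K)), Lifts Ψ e ∧
      ∀ Ψ' : PlaneIso P L (ℙ K (Fin 3 → K)) (ℙ K (Fin 3 → K)), Lifts Ψ' e →
        ((∀ p, Ψ'.pt p = Ψ.pt p) ∧ (∀ l, Ψ'.ln l = Ψ.ln l)) ∨
        ((∀ p, Ψ'.pt p = Ψ.pt (τ.pt p)) ∧ (∀ l, Ψ'.ln l = Ψ.ln (τ.ln l))) := by
  obtain ⟨μ'⟩ := p_MOD p_BAS p_ACT K hK τ' hτ'
  obtain ⟨Ψ, hΨ⟩ := exLift hK hτ hτ' μ' e p_FIX p_FIX
    (p_LFT (p_COB (p_NRM p_REL (p_CST p_INV p_FOU) (p_ZET p_CYC))) p_FIX)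
    (p_EXT65 p_FIX p_FIX p_SEP p_SEP (p_EXP p_SEP) (p_EXP p_SEP))
  exact ⟨Ψ, hΨ, fun Ψ' h' => unLift hτ e (p_UNI p_FIX p_SEP) p_FIX Ψ Ψ' hΨ h'⟩

end Pool.Agent.Results.MP_7e1f1a_co.UniqueLift
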